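import Mathlib
import Pool.Agent.P.MP_c25521_co.MFin

namespace Pool.Agent.Results.MP_c25521_co.ConstantFactor

open Pool.Agent.P.MP_c25521_co Pool.Agent.P.MP_c25521_co.Multi

/-- If `G i` is `m i`-degenerate for every `i`, `M = ∑ i, m i` and `P = ∑_{i < j} m i * m j`, then
the union of the `G i` is properly colourable with
`M + 1 + ⌊1500 √(P + √(P M) log M)⌋` colours. -/
theorem result (s : ℕ) (m : Fin s → ℕ) (V : Type) [Fintype V] (G : Fin s → SimpleGraph V)
    (hdeg : ∀ i : Fin s, ∀ S : Finset V, S.Nonempty →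
      ∃ v ∈ S, ∀ T : Finset V, T ⊆ S → (∀ w ∈ T, (G i).Adj v w) → T.card ≤ m i) :
    (⨆ i, G i).Colorable (∑ i, m i + 1 +
      ⌊1500 * Real.sqrt (((∑ i : Fin s, ∑ j ∈ Finset.Ioi i, m i * m j : ℕ) : ℝ) +
        Real.sqrt (((∑ i : Fin s, ∑ j ∈ Finset.Ioi i, m i * m j : ℕ) : ℝ) *
          ((∑ i, m i : ℕ) : ℝ)) * Real.log ((∑ i, m i : ℕ) : ℝ))⌋₊) := by
  classical
  rcases (Finset.univ : Finset (Fin s)).eq_empty_or_nonempty with h0 | hne
  · refine SimpleGraph.Colorable.mono (n := 1) (by omega)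
      ⟨SimpleGraph.Coloring.mk (fun _ => 0) fun {a b} hadj => ?_⟩
    obtain ⟨i, -⟩ := SimpleGraph.iSup_adj.1 hadj
    exact absurd (h0 ▸ Finset.mem_univ i) (Finset.notMem_empty i)
  obtain ⟨j, -, hj⟩ := Finset.exists_max_image Finset.univ m hne
  choose out hc ho using fun i => exists_out (G i) (m i) (hdeg i) Finset.univ
  set k := ∑ i ∈ Finset.univ.erase j, m i with hk
  set P := ∑ i : Fin s, ∑ j ∈ Finset.Ioi i, m i * m j with hP
  have hsplit : m j + k = ∑ i, m i := Finset.add_sum_erase _ _ (Finset.mem_univ j)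
  have hout : ∀ v, ((Finset.univ.erase j).biUnion fun i => out i v).card ≤ k := fun v =>
    Finset.card_biUnion_le.trans (Finset.sum_le_sum fun i _ => hc i v)
  have hH : ∀ a b, (⨆ i, G i).Adj a b → (G j).Adj a b ∨
      (b ∈ (Finset.univ.erase j).biUnion fun i => out i a) ∨
        a ∈ (Finset.univ.erase j).biUnion fun i => out i b := by
    intro a b hadj
    obtain ⟨i, hi⟩ := SimpleGraph.iSup_adj.1 hadj
    by_cases hij : i = j
    · exact Or.inl (hij ▸ hi)
    · rcases ho i a (Finset.mem_univ _) b (Finset.mem_univ _) hi with h | h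
      · exact Or.inr (Or.inl (Finset.mem_biUnion.2 ⟨i, by simp [hij], h⟩))
      · exact Or.inr (Or.inr (Finset.mem_biUnion.2 ⟨i, by simp [hij], h⟩))
  rcases Nat.eq_zero_or_pos k with hk0 | hk1
  · refine (colorable_degen _ (m j) fun S hS => ?_).mono (by omega)
    obtain ⟨v, hv, h⟩ := hdeg j S hS
    refine ⟨v, hv, fun T hT hadj => h T hT fun w hw => ?_⟩
    have he : ∀ v, ((Finset.univ.erase j).biUnion fun i => out i v) = ∅ := fun v =>
      Finset.card_eq_zero.1 (by have := hout v; omega)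
    simpa [he] using hH v w (hadj w hw)
  · have hmj : 1 ≤ m j := by
      by_contra hc0
      have : k = 0 := Finset.sum_eq_zero fun i _ => by have := hj i (Finset.mem_univ i); omega
      omega
    have hkP : k * ∑ i, m i ≤ 2 * P := by
      have h1 := Finset.sum_sum_Ioi_add_eq_sum_sum_off_diag fun a b : Fin s => m b * m a
      have h2 : ∑ i : Fin s, ∑ j ∈ Finset.Ioi i, (m i * m j + m j * m i) = 2 * P := by
        rw [hP, Finset.mul_sum]
        refine Finset.sum_congr rfl fun i _ => ?_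
        rw [Finset.mul_sum]
        exact Finset.sum_congr rfl fun j _ => by ring
      rw [← h2, h1, Finset.mul_sum]
      refine Finset.sum_le_sum fun i _ => ?_
      rw [← Finset.mul_sum, mul_comm]
      refine Nat.mul_le_mul_left _ ?_
      have h3 : m i + ∑ x ∈ ({i}ᶜ : Finset (Fin s)), m x = ∑ x, m x := by
        rw [← Finset.sum_add_sum_compl {i}, Finset.sum_singleton]
      have := hj i (Finset.mem_univ i)
      omega
    have h1 := count_final (∑ i, m i) k P hk1 (by omega) hkP
    refine (colorable_Y (G j) (⨆ i, G i) (m j) k _ hk1 (hdeg j) _ hout hH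
      (by rw [hsplit]; exact h1)).mono ?_
    rw [hsplit]
    refine Nat.add_le_add_left (Nat.le_floor ?_) _
    have h2 := Nat.floor_le (a := 150 * Real.sqrt ((P : ℝ) +
      Real.sqrt (P * ((∑ i, m i : ℕ) : ℝ)) * Real.log ((∑ i, m i : ℕ) : ℝ))) (by positivity)
    rw [Nat.cast_mul]
    push_cast at h2 ⊢
    linarith

end Pool.Agent.Results.MP_c25521_co.ConstantFactor
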