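import Mathlib
import Pool.Agent.P.MP_c25521_co.Dom

namespace Pool.Agent.Results.MP_c25521_co.DominantAsymptotic

open Pool.Agent.P.MP_c25521_co

/-- If `G i` is `m i`-degenerate for every `i` and `m j` dominates the other degeneracies,
`3 (2 R ^ 2) ^ R (1 + ∑_{i ≠ j} m i) ≤ m j` with `R ≥ 2`, then the union of the `G i` is properly
colourable with `m j + ⌊4 m j / R⌋` colours. -/
theorem result (s : ℕ) (m : Fin s → ℕ) (V : Type) [Fintype V] (G : Fin s → SimpleGraph V)
    (hdeg : ∀ i : Fin s, ∀ S : Finset V, S.Nonempty →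
      ∃ v ∈ S, ∀ T : Finset V, T ⊆ S → (∀ w ∈ T, (G i).Adj v w) → T.card ≤ m i)
    (j : Fin s) (R : ℕ) (hR : 2 ≤ R)
    (hj : 3 * (2 * R ^ 2) ^ R * (1 + ∑ i ∈ Finset.univ.erase j, m i) ≤ m j) :
    (⨆ i, G i).Colorable (m j + 4 * m j / R) := by
  classical
  choose out hc ho using fun i => exists_out (G i) (m i) (hdeg i) Finset.univ
  have hk : 0 < 1 + ∑ i ∈ Finset.univ.erase j, m i := by omega
  have hm : 0 < m j := lt_of_lt_of_le (by positivity) hj
  refine (colorable_of_out (G j) (⨆ i, G i) (m j) _ (2 * R ^ 2) R hm hk (by nlinarith) hR (hdeg j)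
    (fun v => (Finset.univ.erase j).biUnion fun i => out i v)
    (fun v => (Finset.card_biUnion_le.trans (Finset.sum_le_sum fun i _ => hc i v)).trans
      (Nat.le_add_left _ _)) ?_).mono (count_le _ _ _ hk hR hj)
  intro a b hadj
  obtain ⟨i, hi⟩ := SimpleGraph.iSup_adj.1 hadj
  by_cases hij : i = j
  · exact Or.inl (hij ▸ hi)
  · rcases ho i a (Finset.mem_univ _) b (Finset.mem_univ _) hi with h | h
    · exact Or.inr (Or.inl (Finset.mem_biUnion.2 ⟨i, by simp [hij], h⟩))
    · exact Or.inr (Or.inr (Finset.mem_biUnion.2 ⟨i, by simp [hij], h⟩))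

end Pool.Agent.Results.MP_c25521_co.DominantAsymptotic
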