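import Mathlib
import Pool.Agent.P.MP_c25521_co.Eps4

namespace Pool.Agent.Results.MP_c25521_co.EpsilonVersion

open Finset Pool.Agent.P.MP_c25521_co.Eps

/-- If `G i` is `m i`-degenerate for every `i`, `M = ∑ i, m i` and `f` is the conjectured number
of colours, then the union of the `G i` is properly colourable with
`⌈(1 - ε) 2 M + ε f + 22 log M⌉` colours, where `ε = 1 / 50000`. -/
theorem result (s : ℕ) (m : Fin s → ℕ) (V : Type) [Fintype V] (G : Fin s → SimpleGraph V)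
    (hdeg : ∀ i : Fin s, ∀ S : Finset V, S.Nonempty →
      ∃ v ∈ S, ∀ T : Finset V, T ⊆ S → (∀ w ∈ T, (G i).Adj v w) → T.card ≤ m i) :
    (⨆ i, G i).Colorable
      ⌈(1 - 1 / 50000 : ℝ) * (2 * ((∑ i, m i : ℕ) : ℝ)) +
        1 / 50000 * ((∑ i, m i + ⌊(1 + Real.sqrt (1 + 8 *
          (((∑ i : Fin s, ∑ j ∈ Finset.Ioi i, m i * m j : ℕ)) : ℝ))) / 2⌋₊ : ℕ) : ℝ) +
        22 * Real.log ((∑ i, m i : ℕ) : ℝ)⌉₊ := by
  classical
  set M := ∑ i, m i with hM
  set P := ∑ i : Fin s, ∑ j ∈ Finset.Ioi i, m i * m j with hP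
  set Q := ∑ i, m i * m i with hQ
  have hMQ : M * M = Q + 2 * P := by
    have h1 := Finset.sum_sum_Ioi_add_eq_sum_sum_off_diag fun a b : Fin s => m b * m a
    have h2 : ∑ i : Fin s, ∑ j ∈ Finset.Ioi i, (m i * m j + m j * m i) = 2 * P := by
      rw [hP, Finset.mul_sum]
      refine Finset.sum_congr rfl fun i _ => ?_
      rw [Finset.mul_sum]
      exact Finset.sum_congr rfl fun j _ => by ring
    rw [← h2, h1, hQ, ← sum_add_distrib, hM, sum_mul]
    refine sum_congr rfl fun i _ => ?_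
    rw [← mul_sum, ← mul_add, ← sum_add_sum_compl {i}, sum_singleton]
  have hMQ' : (M : ℝ) * M = Q + 2 * P := by exact_mod_cast hMQ
  have P0 : (0 : ℝ) ≤ P := Nat.cast_nonneg _
  have Q0 : (0 : ℝ) ≤ Q := Nat.cast_nonneg _
  have M0 : (0 : ℝ) ≤ M := Nat.cast_nonneg _
  have hsq : 2 * ((M : ℝ) - Q / M) ≤ Real.sqrt (1 + 8 * P) := by
    refine Real.le_sqrt_of_sq_le ?_
    rcases M0.eq_or_lt with h0 | h0
    · rw [← h0]
      simp only [div_zero, sub_zero, mul_zero]
      linarith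
    · have a1 : (Q : ℝ) / M * M = Q := div_mul_cancel₀ _ h0.ne'
      have a2 : (Q : ℝ) / M ≤ M := by rw [div_le_iff₀ h0]; linarith
      have a3 : (0 : ℝ) ≤ Q / M := by positivity
      nlinarith
  have hfl := Nat.lt_floor_add_one ((1 + Real.sqrt (1 + 8 * (P : ℝ))) / 2)
  have hf1 : 1 ≤ ⌊(1 + Real.sqrt (1 + 8 * (P : ℝ))) / 2⌋₊ := by
    refine Nat.le_floor ?_
    have := Real.one_le_sqrt.2 (by linarith : 1 ≤ 1 + 8 * (P : ℝ))
    push_cast
    linarith
  have hf1' : (1 : ℝ) ≤ ⌊(1 + Real.sqrt (1 + 8 * (P : ℝ))) / 2⌋₊ := by exact_mod_cast hf1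
  have hl := Real.log_natCast_nonneg M
  set N : V → Finset V := fun u => univ.filter ((⨆ i, G i).Adj u) with hN
  set L : Fin s → V → Finset V := fun i u => univ.filter ((G i).Adj u) with hL
  have Ls : ∀ i u w, w ∈ L i u → u ∈ L i w := fun i u w h => by
    simpa [hL] using ((mem_filter.1 h).2).symm
  have Li : ∀ i u, u ∉ L i u := fun i u => by simp [hL]
  have Ld : ∀ i, ∀ S : Finset V, S.Nonempty → ∃ v ∈ S, (L i v ∩ S).card ≤ m i := fun i S hS => by
    obtain ⟨v, hv, h⟩ := hdeg i S hS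
    exact ⟨v, hv, h _ inter_subset_right fun w hw => (mem_filter.1 (mem_inter.1 hw).1).2⟩
  have hee : ∀ X, ee N X X ≤ ∑ i, ee (L i) X X := fun X => by
    simp only [ee]
    rw [sum_comm]
    refine sum_le_sum fun u _ => ?_
    have : N u ∩ X ⊆ univ.biUnion fun i => L i u ∩ X := fun w hw => by
      obtain ⟨i, hi⟩ := SimpleGraph.iSup_adj.1 (mem_filter.1 (mem_inter.1 hw).1).2
      exact mem_biUnion.2 ⟨i, mem_univ _, mem_inter.2 ⟨mem_filter.2 ⟨mem_univ _, hi⟩,
        (mem_inter.1 hw).2⟩⟩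
    exact_mod_cast (card_le_card this).trans card_biUnion_le
  have hsum : ∀ (X : Finset V) (B : Fin s → ℝ), (∀ i, ee (L i) X X + B i ≤ 2 * m i * X.card) →
      ee N X X + ∑ i, B i ≤ 2 * M * X.card := fun X B h => by
    have := sum_le_sum fun i (_ : i ∈ univ) => h i
    rw [sum_add_distrib, ← sum_mul, ← mul_sum, ← Nat.cast_sum] at this
    linarith [hee X]
  obtain ⟨f, f1, f2⟩ := all_cases (N := N)
    (fun u w h => mem_filter.2 ⟨mem_univ _, (mem_filter.1 h).2.symm⟩) (fun u => by simp [hN]) M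
    ⌈(1 - 1 / 50000 : ℝ) * (2 * (M : ℝ)) + 1 / 50000 *
      ((M + ⌊(1 + Real.sqrt (1 + 8 * (P : ℝ))) / 2⌋₊ : ℕ) : ℝ) + 22 * Real.log M⌉₊ Q
    (fun X hX => by
      have := hsum X (fun i => 2 * m i) fun i => ee_ind (Ls i) (Ld i) 1 _ (fun Y hY => by
        have := ee_le (Li i) Y
        rw [hY] at this
        push_cast at this ⊢
        linarith) X hX.card_pos
      rwa [← mul_sum, ← Nat.cast_sum] at this)
    (fun X hX => by
      have := hsum X (fun i => m i * m i) fun i => ee_ind (Ls i) (Ld i) (m i) _ (fun Y hY => by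
        have := ee_le (Li i) Y
        rw [hY] at this
        have : (0 : ℝ) ≤ m i := Nat.cast_nonneg _
        linarith) X ((single_le_sum (fun _ _ => Nat.zero_le _) (mem_univ i)).trans hX)
      rw [hQ]
      push_cast
      exact this)
    (by linarith) (Nat.one_le_ceil_iff.2 (by push_cast; linarith))
    (le_trans (by push_cast; linarith) (Nat.le_ceil _)) univ
  exact ⟨SimpleGraph.Coloring.mk (fun v => ⟨f v, f1 v (mem_univ _)⟩) fun {a b} hab e =>
    f2 a (mem_univ _) b (mem_univ _) (mem_filter.2 ⟨mem_univ _, hab⟩) (congrArg Fin.val e)⟩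

end Pool.Agent.Results.MP_c25521_co.EpsilonVersion
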