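import Mathlib
import Pool.Agent.P.MP_c25521_co.Sqrt

namespace Pool.Agent.Results.MP_c25521_co.SqrtError

open Pool.Agent.P.MP_c25521_co

/-- If `G i` is `m i`-degenerate for every `i`, `M = ∑ i, m i` and `k = ∑_{i ≠ j} m i`, then the
union of the `G i` is properly colourable with `M + 1 + ⌊150 ((k + 1) ^ 2 + √(log M)) √M⌋`
colours. -/
theorem result (s : ℕ) (m : Fin s → ℕ) (V : Type) [Fintype V] (G : Fin s → SimpleGraph V)
    (hdeg : ∀ i : Fin s, ∀ S : Finset V, S.Nonempty →
      ∃ v ∈ S, ∀ T : Finset V, T ⊆ S → (∀ w ∈ T, (G i).Adj v w) → T.card ≤ m i)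
    (j : Fin s) :
    (⨆ i, G i).Colorable (∑ i, m i + 1 +
      ⌊150 * ((((∑ i ∈ Finset.univ.erase j, m i : ℕ) : ℝ) + 1) ^ 2 +
        Real.sqrt (Real.log ((∑ i, m i : ℕ) : ℝ))) * Real.sqrt ((∑ i, m i : ℕ) : ℝ)⌋₊) := by
  classical
  choose out hc ho using fun i => exists_out (G i) (m i) (hdeg i) Finset.univ
  have hsplit : m j + ∑ i ∈ Finset.univ.erase j, m i = ∑ i, m i :=
    Finset.add_sum_erase _ _ (Finset.mem_univ j)
  rcases Nat.eq_zero_or_pos (∑ i, m i) with h0 | hM
  · refine SimpleGraph.Colorable.mono (n := 1) (by omega)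
      ⟨SimpleGraph.Coloring.mk (fun _ => 0) fun {a b} hadj => ?_⟩
    obtain ⟨i, hi⟩ := SimpleGraph.iSup_adj.1 hadj
    have hi0 : m i = 0 := Finset.sum_eq_zero_iff.1 h0 i (Finset.mem_univ i)
    have he : ∀ v, out i v = ∅ := fun v => Finset.card_eq_zero.1 (by have := hc i v; omega)
    simpa [he] using ho i a (Finset.mem_univ _) b (Finset.mem_univ _) hi
  · refine (colorable_sqrt (G j) (⨆ i, G i) (m j) _ (by omega) (hdeg j)
      (fun v => (Finset.univ.erase j).biUnion fun i => out i v)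
      (fun v => Finset.card_biUnion_le.trans (Finset.sum_le_sum fun i _ => hc i v)) ?_).mono ?_
    · intro a b hadj
      obtain ⟨i, hi⟩ := SimpleGraph.iSup_adj.1 hadj
      by_cases hij : i = j
      · exact Or.inl (hij ▸ hi)
      · rcases ho i a (Finset.mem_univ _) b (Finset.mem_univ _) hi with h | h
        · exact Or.inr (Or.inl (Finset.mem_biUnion.2 ⟨i, by simp [hij], h⟩))
        · exact Or.inr (Or.inr (Finset.mem_biUnion.2 ⟨i, by simp [hij], h⟩))
    · rw [hsplit]
      have := Nat.le_floor (count_real (∑ i, m i) (∑ i ∈ Finset.univ.erase j, m i) hM)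
      omega

end Pool.Agent.Results.MP_c25521_co.SqrtError
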